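import Pool.Agent.H79.LX.Q169_RC_CVDef
import Pool.Agent.H7.L.R782_Bal_ClassDef
import Pool.Agent.H79.LX.R703_MO_Defs
import Pool.Agent.H79.LX.W5h83_GT_ConeDef

/-!
# The joint class: vanishing of `ℓ²`-homology in one degree
-/

set_option autoImplicit false

namespace Pool.Agent.H79.RV

open Pool.Agent.W907.SG Pool.Agent.W907.SM Pool.Agent.TH652.Above Pool.Agent.R782.Bal Pool.Agent.R703.MO
open Pool.Agent.TH652.Join (join)
open Pool.Agent.R781.VS (con NoSq)
open Pool.Agent.Q169.RC (CV)
open Pool.Agent.W5h83.GT (cone)

/-- `Van i G`: a class of pairs of a number `i` and a finite graph `G`, thought of as its flag complex `L`,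
for which the `ℓ²`-homology of the right-angled Coxeter group of `G` vanishes in the degree `i`. The first six
rules give members, the others are closure properties; the degrees are treated one by one. -/
inductive Van : ℕ → ∀ {V : Type}, SimpleGraph V → Prop
  /-- full subcomplexes of the members of the classes `CV b n`, above `n / 2` (these classes contain `AM n` and
  `AQ n` and the properly `(k + 1)`-coloured complexes with vanishing van Kampen obstruction for the
  `2 k`-sphere) -/
  | cv {b : Bool} {n i : ℕ} {V : Type} (G : SimpleGraph V) (A : Set V) : CV b n G → n < 2 * i →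
      Van i (G.induce A)
  /-- the members of the class `SQ b` (which contains the properly `(d + 1)`-coloured complexes embedded in the
  `2 d`-sphere, for `b = d + 1`), in the degrees from `b` on -/
  | sq {b i : ℕ} {V : Type} (G : SimpleGraph V) : SQ b G → b ≤ i → Van i G
  /-- full subcomplexes of flag homology spheres with at most `2 n + i` vertices -/
  | few {n i : ℕ} {V : Type} [Fintype V] [LinearOrder V] (G : SimpleGraph V) (A : Set V) : HSph n G →
      n < 2 * i → Fintype.card V ≤ 2 * n + i → Van i (G.induce A)
  /-- full subcomplexes of complexes whose simplices with `r` vertices have more than `|V| - 3 r` common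
  neighbours, in the degrees from `r` on (for example all complexes with less than `3 i` vertices) -/
  | nbr {r i : ℕ} {V : Type} [Fintype V] (G : SimpleGraph V) (A : Set V) : 1 ≤ r → r ≤ i →
      (∀ T : Finset V, G.IsClique (T : Set V) → T.card = r →
        Fintype.card V < 3 * r + {u : V | ∀ t ∈ T, G.Adj t u}.ncard) → Van i (G.induce A)
  /-- Morse functions: a system of slopes such that the ascending links of the flat cubes have no homology in the
  complementary degree -/
  | slope {i : ℕ} {V : Type} [Fintype V] [LinearOrder V] (G : SimpleGraph V) {X : Type} [Finite X]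
      [Nonempty X] (D : Slope G X) :
      (∀ (x : X) (S : Finset V), G.IsClique (S : Set V) → (∀ s ∈ S, D.dir s x = 0) →
        ∀ j, i = j + S.card → HomZero G (D.Asc S x) j) → Van i G
  /-- suspensions, in all degrees -/
  | susp {i : ℕ} {V : Type} [Finite V] (G : SimpleGraph V) : Van i (susp G)
  /-- adding a vertex whose link is in the class in the degree `i - 1` -/
  | add {i : ℕ} {V : Type} [Finite V] (G : SimpleGraph V) (v : V) : Van i (G.induce {v}ᶜ) →
      (∀ j, i = j + 1 → Van j (G.induce (G.neighborSet v))) → Van i G
  /-- removing a vertex whose link is in the class in the degree `i` -/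
  | rem {i : ℕ} {V : Type} [Finite V] (G : SimpleGraph V) (v : V) : Van i G →
      Van i (G.induce (G.neighborSet v)) → Van i (G.induce {v}ᶜ)
  /-- deleting an edge whose link is in the class in the degree `i - 1` -/
  | del {i : ℕ} {V : Type} [Finite V] (G : SimpleGraph V) (s t : V) : G.Adj s t → Van i G →
      (∀ j, i = j + 1 → Van j (G.induce (G.neighborSet s ∩ G.neighborSet t))) →
      Van i (G.deleteEdges {s(s, t)})
  /-- vertex splitting: the edge `st` is not in an induced 4-cycle, `con G s t` is the contraction -/
  | split {i : ℕ} {V : Type} [Finite V] (G : SimpleGraph V) (s t : V) : G.Adj s t → NoSq G s t →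
      Van i ((con G s t).induce {t}ᶜ) →
      (∀ j, i = j + 1 → Van j (G.induce (G.neighborSet s ∩ G.neighborSet t))) → Van i G
  /-- gluing along a full subcomplex which is in the class in the degree `i - 1` -/
  | glue {i : ℕ} {V : Type} [Finite V] (G : SimpleGraph V) (A B : Set V) : A ∪ B = Set.univ →
      (∀ a ∈ A, a ∉ B → ∀ b ∈ B, b ∉ A → ¬ G.Adj a b) → Van i (G.induce A) → Van i (G.induce B) →
      (∀ j, i = j + 1 → Van j (G.induce (A ∩ B))) → Van i G
  /-- gluing along any full subcomplex `S`, if the two pieces with a cone over `S` attached are in the class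
  (for example connected sums of spheres) -/
  | sum {i : ℕ} {V : Type} [Finite V] (G : SimpleGraph V) (A B : Set V) : 1 ≤ i → A ∪ B = Set.univ →
      (∀ a ∈ A, a ∉ B → ∀ b ∈ B, b ∉ A → ¬ G.Adj a b) →
      Van i (cone (G.induce A) {a | (a : V) ∈ B}) → Van i (cone (G.induce B) {b | (b : V) ∈ A}) → Van i G
  /-- joins: for all `p + q = i` the first factor is in the class in the degree `p` or the second one in the
  degree `q` -/
  | join {i : ℕ} {V U : Type} [Finite V] [Finite U] (G : SimpleGraph V) (H : SimpleGraph U) (S : Set ℕ) :
      (∀ p q, p + q = i → p ∈ S → Van p G) → (∀ p q, p + q = i → p ∉ S → Van q H) → Van i (join G H)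
  /-- one degree and the links, including the whole complex: then all full subcomplexes in the degrees from `k`
  on -/
  | links {k i : ℕ} {V : Type} [Finite V] (G : SimpleGraph V) (A : Set V) : 1 ≤ k → k ≤ i →
      (∀ T : Finset V, G.IsClique (T : Set V) → Van k (G.induce (lk G T))) → Van i (G.induce A)
  /-- one degree and the links of the nonempty simplices: then all full subcomplexes in the degrees above `k` -/
  | above {k i : ℕ} {V : Type} [Finite V] (G : SimpleGraph V) (A : Set V) : k < i →
      (∀ T : Finset V, G.IsClique (T : Set V) → T.Nonempty → Van k (G.induce (lk G T))) →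
      Van i (G.induce A)
  /-- duality for homology spheres -/
  | dual {i j n : ℕ} {V : Type} [Fintype V] [LinearOrder V] (G : SimpleGraph V) : HSph n G → i + j = n →
      Van j G → Van i G
  /-- if the group has Euler characteristic zero then one degree can be omitted -/
  | euler {k : ℕ} {V : Type} [Fintype V] (G : SimpleGraph V) : chiW G = 0 →
      (∀ i, i ≠ k → Van i G) → Van k G
  /-- isomorphic graphs -/
  | iso {i : ℕ} {V U : Type} (G : SimpleGraph V) (H : SimpleGraph U) : Nonempty (G ≃g H) → Van i G → Van i H

end Pool.Agent.H79.RV
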