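import Pool.Agent.H79.RV.Defs
import Pool.Agent.H79.LX.Q169_RC_CV
import Pool.Agent.H7.L.R782_Bal_Class
import Pool.Agent.H79.LX.R703_MO_Main
import Pool.Agent.H79.LX.W5h83_GT_Num5
import Pool.Agent.H79.LX.X250_Sph_OneDeg
import Pool.Agent.H79.LX.Q24_SG_Bad
import Pool.Agent.H79.LX.W5h83_FS_Final

/-!
# The joint class: proof
-/

set_option autoImplicit false
set_option linter.unusedSectionVars false

namespace Pool.Agent.H79.RV

open Pool.Agent.W907.SG Pool.Agent.W907.SM Pool.Agent.TH652.Above Pool.Agent.R782.Bal Pool.Agent.R703.MO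
open Pool.Agent.TH652.Join (join ljoin)
open Pool.Agent.TH652.Glue (lglue)
open Pool.Agent.R781.VS (con NoSq l2split l2vdel)
open Pool.Agent.Q169.RC (CV Q_of_CV)
open Pool.Agent.W5h83.GT (cone van_sum)

/-- `L2Van` for one pair of instances gives it for all. -/
theorem lv_mk {V : Type} [iF : Fintype V] [iO : LinearOrder V] {G : SimpleGraph V} {i : ℕ} (h : L2Van G i) :
    LV G i := fun _ _ => ord _ _ _ _ _ _ _ _ i ⟨SimpleGraph.Iso.refl⟩ h

/-- the semantic meaning of the class -/
def Sem (i : ℕ) {V : Type} (G : SimpleGraph V) : Prop := Finite V ∧ LV G i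

theorem sem_of_van {i : ℕ} {V : Type} {G : SimpleGraph V} (h : Van i G) : Sem i G := by
  classical
  induction h with
  | cv G A hG hi =>
    obtain ⟨h1, h2⟩ := Q_of_CV hG
    exact ⟨inferInstance, h2 A _ hi⟩
  | sq G hG hi => exact ⟨(VB_of_SQ hG).1, (VB_of_SQ hG).2 _ hi⟩
  | few G A hS hi hc =>
    exact ⟨inferInstance, lv_mk (Pool.Agent.W5h83.FS.above_few hS A _ hi hc)⟩
  | @nbr r i V _ G A hr hri hT =>
    refine ⟨inferInstance, ?_⟩
    have h1 : Pool.Agent.Q24.SG.CR G Set.univ r := Pool.Agent.Q24.SG.CR_univ (by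
      intro T hT' hc
      rw [Nat.card_eq_fintype_card]
      exact hT T hT' hc)
    exact Pool.Agent.Q24.SG.few G _ A r rfl hr (h1.mono (Set.subset_univ A)) i hri
  | slope G D h => exact ⟨inferInstance, lv_mk (morse_slope G D _ h)⟩
  | susp G => exact ⟨inferInstance, lv_susp G _⟩
  | add G v _ _ ih1 ih2 => exact ⟨inferInstance, lstep1 _ G v _ ih1.2 fun j hj => (ih2 j hj).2⟩
  | @rem i V _ G v _ _ ih1 ih2 =>
    refine ⟨inferInstance, fun _ _ => ?_⟩
    have : Fintype V := Fintype.ofFinite V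
    have e1 : LinearOrder V := IsWellOrder.linearOrder WellOrderingRel
    have h5 := l2vdel V G v i (ih1.2 _ _) (ih2.2 _ _)
    exact ord _ _ _ _ _ _ _ _ i ⟨SimpleGraph.Iso.refl⟩ h5
  | del G s t hst _ _ ih1 ih2 =>
    exact ⟨inferInstance, lstep2 _ G s t _ hst ih1.2 fun j hj => (ih2 j hj).2⟩
  | split G s t hst hsq _ _ ih1 ih2 =>
    refine ⟨inferInstance, fun _ _ => ?_⟩
    exact l2split _ G s t _ hst hsq (ih1.2 _ _) fun j hj => (ih2 j hj).2 _ _
  | glue G A B hAB hno _ _ _ ih1 ih2 ih3 =>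
    exact ⟨inferInstance, lglue G A B hAB hno _ ih1.2 ih2.2 fun j hj => (ih3 j hj).2⟩
  | @sum i V _ G A B hi hAB hno _ _ ih1 ih2 =>
    refine ⟨inferInstance, fun _ _ => ?_⟩
    have e1 : LinearOrder (Option ↥A) := IsWellOrder.linearOrder WellOrderingRel
    have e2 : LinearOrder (Option ↥B) := IsWellOrder.linearOrder WellOrderingRel
    exact van_sum G A B hAB hno i hi (ih1.2 _ _) (ih2.2 _ _)
  | @join i V U _ _ G H S _ _ ih1 ih2 =>
    refine ⟨inferInstance, ljoin G H i fun p q hpq => ?_⟩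
    by_cases hp : p ∈ S
    · exact Or.inl (ih1 p q hpq hp).2
    · exact Or.inr (ih2 p q hpq hp).2
  | @links k i V _ G A hk hki _ ih =>
    refine ⟨inferInstance, ?_⟩
    have : Fintype V := Fintype.ofFinite V
    have e1 : LinearOrder V := IsWellOrder.linearOrder WellOrderingRel
    have h0 : L2Van G k := by
      have h1 := (ih ∅ (by simp)).2
      rw [Pool.Agent.X250.Sph.lk_empty] at h1
      exact (lv_univ G k).1 h1 _ _
    rcases hki.eq_or_lt with rfl | hi
    · exact Pool.Agent.X250.Sph.van_at (fun T hT _ => (ih T hT).2) h0 A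
    · exact Pool.Agent.X250.Sph.van_above (fun T hT _ => (ih T hT).2) i hi A
  | @above k i V _ G A hki _ ih =>
    refine ⟨inferInstance, ?_⟩
    have : Fintype V := Fintype.ofFinite V
    have e1 : LinearOrder V := IsWellOrder.linearOrder WellOrderingRel
    exact Pool.Agent.X250.Sph.van_above (fun T hT hne => (ih T hT hne).2) i hki A
  | dual G hS hij _ ih => exact ⟨inferInstance, lv_mk (Pool.Agent.TH652.Dual.l2_duality hS hij (ih.2 _ _))⟩
  | @euler k V _ G hχ _ ih =>
    have e1 : LinearOrder V := IsWellOrder.linearOrder WellOrderingRel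
    refine ⟨inferInstance, lv_mk ?_⟩
    exact (l2eul V G k fun i hi => (ih i hi).2 _ _).2 hχ k
  | @iso i V U G H e _ ih =>
    have hV : Finite V := ih.1
    exact ⟨Finite.of_equiv V e.some.toEquiv, liso _ _ _ _ i e ih.2⟩

/-- vanishing of the `ℓ²`-homology -/
theorem l2van_of_van {i : ℕ} {V : Type} [Fintype V] [LinearOrder V] {G : SimpleGraph V} (h : Van i G) :
    L2Van G i := (sem_of_van h).2 _ _

end Pool.Agent.H79.RV
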